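import Mathlib

/-!
# Powers of the Frobenius endomorphism and Vandermonde determinants modulo powers of a prime ideal
-/

set_option autoImplicit false

open Finset

namespace Pool.Agent.J6H8.FR

variable {R : Type*} [CommRing R] {P : Ideal R} {p : ℕ}

lemma pow_prime_mem (hp : p.Prime) (hpP : (p : R) ∈ P) {a : ℕ} (ha : 1 ≤ a) {x y : R}
    (h : x - y ∈ P ^ a) : x ^ p - y ^ p ∈ P ^ (a + 1) := by
  obtain ⟨z, hz⟩ : ∃ z, z = x - y := ⟨_, rfl⟩
  have hx : x = z + y := by rw [hz]; ring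
  rw [← hz] at h
  have h1 := add_pow_prime_eq hp z y
  rw [hx, h1]
  have h2 : z ^ p ∈ P ^ (a + 1) := by
    have h3 : z ^ p ∈ (P ^ a) ^ p := Ideal.pow_mem_pow h p
    rw [← pow_mul] at h3
    refine Ideal.pow_le_pow_right ?_ h3
    have := hp.two_le
    nlinarith
  have h4 : (p : R) * z ∈ P ^ (a + 1) := by
    rw [pow_succ']
    exact Ideal.mul_mem_mul hpP h
  have e : z ^ p + y ^ p + (p : R) * z * y *
      ∑ k ∈ Ioo 0 p, z ^ (k - 1) * y ^ (p - k - 1) * ↑(p.choose k / p) - y ^ p =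
      z ^ p + ((p : R) * z) * (y *
      ∑ k ∈ Ioo 0 p, z ^ (k - 1) * y ^ (p - k - 1) * ↑(p.choose k / p)) := by ring
  rw [e]
  exact Ideal.add_mem _ h2 (Ideal.mul_mem_right _ _ h4)

lemma pow_pow_mem (hp : p.Prime) (hpP : (p : R) ∈ P) {x y : R} (h : x - y ∈ P) (m : ℕ) :
    x ^ (p ^ m) - y ^ (p ^ m) ∈ P ^ (m + 1) := by
  induction m with
  | zero => simpa using h
  | succ m ih =>
    have h1 := pow_prime_mem hp hpP (Nat.succ_le_succ (Nat.zero_le m)) ih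
    rw [pow_succ p m, pow_mul x, pow_mul y]
    exact h1

section frob

variable (t : R →+* R) {q : ℕ}

lemma iter_mem (ht : ∀ x, t x - x ^ q ∈ P) (b : R) (d : ℕ) : (t^[d]) b - b ^ (q ^ d) ∈ P := by
  induction d with
  | zero => simp
  | succ d ih =>
    rw [Function.iterate_succ_apply', pow_succ, pow_mul]
    have h1 := ht ((t^[d]) b)
    have h2 : ((t^[d]) b) ^ q - (b ^ (q ^ d)) ^ q ∈ P :=
      Ideal.mem_of_dvd _ (sub_dvd_pow_sub_pow _ _ _) ih
    have h3 := Ideal.add_mem _ h1 h2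
    rwa [sub_add_sub_cancel] at h3

/-- the numbers which are congruent modulo `P` -/
def Z (q J : ℕ) (a : R) (i : ℕ) : R := ((t^[i]) a) ^ (q ^ (J - i))

lemma Z_mem (hp : p.Prime) (hpP : (p : R) ∈ P) (ht : ∀ x, t x - x ^ q ∈ P) {k J : ℕ}
    (hq : q = p ^ k) (a : R) {i j : ℕ} (hij : i < j) (hj : j ≤ J) :
    Z t q J a j - Z t q J a i ∈ P ^ (k * (J - j) + 1) := by
  obtain ⟨d, rfl⟩ : ∃ d, j = i + d := ⟨j - i, by omega⟩
  unfold Z
  have h1 := iter_mem t ht ((t^[i]) a) d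
  have h2 := pow_pow_mem hp hpP h1 (k * (J - (i + d)))
  rw [pow_mul p, ← hq] at h2
  have e1 : (t^[i + d]) a = (t^[d]) ((t^[i]) a) := by
    rw [Nat.add_comm, Function.iterate_add_apply]
  have e2 : q ^ (J - i) = q ^ d * q ^ (J - (i + d)) := by
    rw [← pow_add]; congr 1; omega
  rw [e1, e2, pow_mul ((t^[i]) a)]
  exact h2

/-- the Vandermonde determinant -/
def V (q J : ℕ) (a : R) : R := (Matrix.vandermonde fun i : Fin (J + 1) => Z t q J a i).det

lemma V_eq (q J : ℕ) (a : R) :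
    V t q J a = ∏ i : Fin (J + 1), ∏ j ∈ Ioi i, (Z t q J a j - Z t q J a i) :=
  Matrix.det_vandermonde _

end frob

lemma prod_mem_pow {ι : Type*} (s : Finset ι) (f : ι → R) (n : ι → ℕ)
    (h : ∀ i ∈ s, f i ∈ P ^ n i) : ∏ i ∈ s, f i ∈ P ^ (∑ i ∈ s, n i) := by
  have h1 := Ideal.prod_mem_prod h
  rwa [Finset.prod_pow_eq_pow_sum] at h1

/-- the exponent -/
def T (k J : ℕ) : ℕ := ∑ j ∈ range (J + 1), j * (k * (J - j) + 1)

lemma T_eq (k J : ℕ) : T k J = ∑ i : Fin (J + 1), ∑ j ∈ Ioi i, (k * (J - j) + 1) := by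
  rw [Finset.sum_comm' (t' := univ) (s' := fun j => Iio j)]
  · rw [T, ← Fin.sum_univ_eq_sum_range (fun j => j * (k * (J - j) + 1))]
    refine Finset.sum_congr rfl fun j _ => ?_
    rw [Finset.sum_const, Fin.card_Iio, smul_eq_mul]
  · intro i j
    simp

lemma T_real_aux (k J n : ℕ) (hn : n ≤ J) :
    ((∑ j ∈ range (n + 1), j * (k * (J - j) + 1) : ℕ) : ℝ) =
      k * ((J : ℝ) * n * (n + 1) / 2 - (n : ℝ) * (n + 1) * (2 * n + 1) / 6)
        + (n : ℝ) * (n + 1) / 2 := by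
  induction n with
  | zero => simp
  | succ n ih =>
    rw [Finset.sum_range_succ, Nat.cast_add, ih (by omega)]
    push_cast [Nat.cast_sub hn]
    ring

lemma T_real (k J : ℕ) :
    (T k J : ℝ) = (J : ℝ) * (J + 1) * (k * (J - 1) + 3) / 6 := by
  rw [T, T_real_aux k J J le_rfl]
  ring

lemma V_mem (t : R →+* R) {q : ℕ} (hp : p.Prime) (hpP : (p : R) ∈ P)
    (ht : ∀ x, t x - x ^ q ∈ P) {k J : ℕ} (hq : q = p ^ k) (a : R) :
    V t q J a ∈ P ^ T k J := by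
  rw [V_eq, T_eq]
  refine prod_mem_pow _ _ _ fun i _ => prod_mem_pow _ _ _ fun j hj => ?_
  have h1 : i < j := by simpa using hj
  exact Z_mem t hp hpP ht hq a (Fin.lt_def.mp h1) (Nat.lt_succ_iff.mp j.2)

end Pool.Agent.J6H8.FR
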