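import Mathlib
import Pool.Agent.J6H8.FR.Ring
import Pool.Agent.J6H8.FC.Galois
import Pool.Agent.J6H8.FC.Group
import Pool.Agent.TH53.HR3

/-!
# Small conjugacy classes of powers of the Frobenius automorphism
-/

set_option autoImplicit false

open Finset Polynomial Module IntermediateField NumberField

namespace Pool.Agent.J6H8.FR

open Pool.Agent.J6H8.FC

variable {K : IntermediateField ℚ ℂ} [FiniteDimensional ℚ K] [IsGalois ℚ K]

/-- the action of an automorphism on the integers -/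
noncomputable def act (σ : K ≃ₐ[ℚ] K) : 𝓞 K →+* 𝓞 K :=
  RingOfIntegers.mapRingHom (σ : K →+* K)

omit [FiniteDimensional ℚ K] [IsGalois ℚ K] in
lemma act_coe (σ : K ≃ₐ[ℚ] K) (x : 𝓞 K) : ((act σ x : 𝓞 K) : K) = σ x := rfl

omit [FiniteDimensional ℚ K] [IsGalois ℚ K] in
lemma iter_coe (σ : K ≃ₐ[ℚ] K) (i : ℕ) (x : 𝓞 K) :
    ((((act σ)^[i]) x : 𝓞 K) : K) = (σ ^ i) x := by
  induction i with
  | zero => rfl
  | succ i ih =>
    rw [Function.iterate_succ_apply', act_coe, ih, pow_succ', AlgEquiv.mul_apply]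

lemma norm_eq (v : 𝓞 K) :
    ((Algebra.norm ℤ v : ℤ) : 𝓞 K) = ∏ σ : K ≃ₐ[ℚ] K, act σ v := by
  apply RingOfIntegers.coe_injective
  have h := Algebra.norm_eq_prod_automorphisms ℚ (v : K)
  rw [← Algebra.coe_norm_int] at h
  rw [map_prod, ← RingOfIntegers.coe_eq_algebraMap]
  simp only [← RingOfIntegers.coe_eq_algebraMap, act_coe]
  rw [← h]
  simp

omit [FiniteDimensional ℚ K] [IsGalois ℚ K] in
lemma act_V {σ τ : K ≃ₐ[ℚ] K} (h : σ * τ = τ * σ) (q J : ℕ) (a : 𝓞 K) :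
    act σ (V (act τ) q J a) = V (act τ) q J (act σ a) := by
  rw [V_eq, V_eq, map_prod]
  refine Finset.prod_congr rfl fun i _ => ?_
  rw [map_prod]
  refine Finset.prod_congr rfl fun j _ => ?_
  have key : ∀ i : ℕ, act σ (Z (act τ) q J a i) = Z (act τ) q J (act σ a) i := by
    intro i
    unfold Z
    rw [map_pow]
    congr 1
    apply RingOfIntegers.ext
    rw [act_coe, iter_coe, iter_coe, act_coe, ← AlgEquiv.mul_apply, ← AlgEquiv.mul_apply]
    have h2 : σ * τ ^ i = τ ^ i * σ := (show Commute σ τ from h).pow_right i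
    rw [h2]
  rw [map_sub, key, key]

omit [IsGalois ℚ K] in
/-- the exponent of `p` in an integer which is in a power of `P` -/
lemma vals {p : ℕ} (hp : p.Prime) (P : Ideal (𝓞 K)) [hPp : P.IsPrime] (hpP : (p : 𝓞 K) ∈ P)
    {e : ℕ} (he : (p : 𝓞 K) ∉ P ^ (e + 1)) {N : ℤ} (hN : N ≠ 0) {m : ℕ}
    (h : (N : 𝓞 K) ∈ P ^ m) : (m : ℝ) * Real.log p ≤ e * Real.log |(N : ℝ)| := by
  have hfin : FiniteMultiplicity (p : ℤ) N := by
    rw [Int.finiteMultiplicity_iff]
    exact ⟨by simpa using hp.ne_one, hN⟩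
  obtain ⟨N', hN', hnd⟩ := hfin.exists_eq_pow_mul_and_not_dvd
  set v := multiplicity (p : ℤ) N with hv
  have hN'0 : N' ≠ 0 := by
    rintro rfl
    exact hN (by rw [hN', mul_zero])
  have hN'P : ((N' : ℤ) : 𝓞 K) ∉ P := by
    intro hmem
    have hcop : IsCoprime (p : ℤ) N' :=
      (Nat.prime_iff_prime_int.mp hp).coprime_iff_not_dvd.mpr hnd
    obtain ⟨u, w, huw⟩ := hcop
    have h1 : (1 : 𝓞 K) ∈ P := by
      have h2 : ((u * (p : ℤ) + w * N' : ℤ) : 𝓞 K) = 1 := by rw [huw]; simp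
      rw [← h2]
      push_cast
      exact P.add_mem (P.mul_mem_left _ hpP) (P.mul_mem_left _ hmem)
    exact hPp.ne_top ((Ideal.eq_top_iff_one P).mpr h1)
  have h2 : ((p : 𝓞 K)) ^ v ∈ P ^ m := by
    have h3 : ((N' : ℤ) : 𝓞 K) * (p : 𝓞 K) ^ v ∈ P ^ m := by
      have h4 : ((N : ℤ) : 𝓞 K) = ((N' : ℤ) : 𝓞 K) * (p : 𝓞 K) ^ v := by
        rw [hN']; push_cast; ring
      rwa [← h4]
    exact (Ideal.IsPrime.mul_mem_pow P h3).resolve_left hN'P
  have hp0 : (p : 𝓞 K) ≠ 0 := by exact_mod_cast hp.ne_zero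
  have hP0 : P ≠ ⊥ := by
    rintro rfl
    exact hp0 (by simpa using hpP)
  have hPr : Prime P := Ideal.prime_of_isPrime hP0 hPp
  have h5 : P ^ m ∣ (Ideal.span {(p : 𝓞 K)}) ^ v := by
    rw [Ideal.span_singleton_pow, Ideal.dvd_span_singleton]
    exact h2
  have h6 : (m : ℕ∞) ≤ v * emultiplicity P (Ideal.span {(p : 𝓞 K)}) := by
    rw [← emultiplicity_pow hPr]
    exact le_emultiplicity_of_pow_dvd h5
  have h7 : emultiplicity P (Ideal.span {(p : 𝓞 K)}) < ((e + 1 : ℕ) : ℕ∞) := by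
    rw [emultiplicity_lt_iff_not_dvd, Ideal.dvd_span_singleton]
    exact he
  obtain ⟨n, hn⟩ := ENat.ne_top_iff_exists.mp (ne_top_of_lt h7)
  rw [← hn] at h6 h7
  have h8 : m ≤ v * n := by exact_mod_cast h6
  have h9 : n < e + 1 := by exact_mod_cast h7
  have h10 : m ≤ e * v := h8.trans (by rw [mul_comm]; exact Nat.mul_le_mul_right _ (by omega))
  have hlp : 0 ≤ Real.log p := Real.log_natCast_nonneg p
  have h11 : (v : ℝ) * Real.log p ≤ Real.log |(N : ℝ)| := by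
    rw [← Real.log_pow]
    have hpR : (0 : ℝ) < p := by exact_mod_cast hp.pos
    refine Real.log_le_log (by positivity) ?_
    rw [hN']
    push_cast
    rw [abs_mul, abs_pow, Nat.abs_cast]
    have h12 : (1 : ℝ) ≤ |(N' : ℝ)| := by exact_mod_cast Int.one_le_abs hN'0
    exact le_mul_of_one_le_right (by positivity) h12
  calc (m : ℝ) * Real.log p ≤ ((e * v : ℕ) : ℝ) * Real.log p :=
        mul_le_mul_of_nonneg_right (by exact_mod_cast h10) hlp
    _ = e * (v * Real.log p) := by push_cast; ring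
    _ ≤ e * Real.log |(N : ℝ)| := mul_le_mul_of_nonneg_left h11 (by positivity)

end Pool.Agent.J6H8.FR
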