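import Mathlib
import Pool.Agent.J6H8.FR.Field

/-!
# The main inequality
-/

set_option autoImplicit false

open Finset Polynomial Module IntermediateField NumberField

namespace Pool.Agent.J6H8.FR

open Pool.Agent.J6H8.FC

variable {K : IntermediateField ℚ ℂ} [FiniteDimensional ℚ K] [IsGalois ℚ K]

/-- the embedding `σ` -/
noncomputable def emb (σ : K ≃ₐ[ℚ] K) : 𝓞 K →+* ℂ :=
  (algebraMap K ℂ).comp ((algebraMap (𝓞 K) K).comp (act σ))

omit [FiniteDimensional ℚ K] [IsGalois ℚ K] in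
lemma emb_apply (σ : K ≃ₐ[ℚ] K) (x : 𝓞 K) : emb σ x = ((σ (x : K) : K) : ℂ) := rfl

omit [FiniteDimensional ℚ K] [IsGalois ℚ K] in
lemma emb_inj (σ : K ≃ₐ[ℚ] K) : Function.Injective (emb σ) := by
  intro x y h
  rw [emb_apply, emb_apply] at h
  exact RingOfIntegers.ext (σ.injective (Subtype.ext h))

omit [FiniteDimensional ℚ K] [IsGalois ℚ K] in
lemma arch (σ τ : K ≃ₐ[ℚ] K) (q J : ℕ) (a : 𝓞 K) (hV : V (act τ) q J a ≠ 0) :
    Real.log ‖emb σ (V (act τ) q J a)‖ ≤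
      ((J : ℝ) + 1) / 2 * Real.log ((J : ℝ) + 1) +
        J * ∑ i ∈ range (J + 1), (q : ℝ) ^ (J - i) *
          Real.posLog ‖(((σ * τ ^ i) (a : K) : K) : ℂ)‖ := by
  set z : Fin (J + 1) → ℂ := fun i => emb σ (Z (act τ) q J a i) with hz
  have hdet : emb σ (V (act τ) q J a) = (Matrix.vandermonde z).det := by
    rw [V_eq, Matrix.det_vandermonde, map_prod]
    refine Finset.prod_congr rfl fun i _ => ?_
    rw [map_prod]
    refine Finset.prod_congr rfl fun j _ => ?_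
    rw [map_sub]
  have hinj : Function.Injective (emb σ) := emb_inj σ
  have hne : emb σ (V (act τ) q J a) ≠ 0 := by
    rw [Ne, map_eq_zero_iff _ hinj]
    exact hV
  have h1 := Pool.Agent.TH53.HR.vandermonde_le z
  rw [← hdet] at h1
  have hpos : 0 < ‖emb σ (V (act τ) q J a)‖ := norm_pos_iff.mpr hne
  have h2 := Real.log_le_log (by positivity) h1
  rw [Real.log_pow, Real.log_mul (by positivity)
    (Finset.prod_ne_zero_iff.mpr fun i _ => by positivity), Real.log_pow,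
    Real.log_prod (fun i _ => by positivity)] at h2
  have h3 : ∀ i : Fin (J + 1), Real.log ((max 1 ‖z i‖) ^ (2 * (J + 1 - 1))) =
      2 * J * ((q : ℝ) ^ (J - (i : ℕ)) *
        Real.posLog ‖(((σ * τ ^ (i : ℕ)) (a : K) : K) : ℂ)‖) := by
    intro i
    rw [Real.log_pow, ← Real.posLog_eq_log_max_one (norm_nonneg _), hz]
    simp only
    unfold Z
    rw [map_pow, norm_pow, Real.posLog_pow, emb_apply, iter_coe, ← AlgEquiv.mul_apply]
    push_cast
    simp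
  rw [Finset.sum_congr rfl fun i _ => h3 i, ← Finset.mul_sum,
    Fin.sum_univ_eq_sum_range (fun i => (q : ℝ) ^ (J - i) *
      Real.posLog ‖(((σ * τ ^ i) (a : K) : K) : ℂ)‖)] at h2
  push_cast at h2
  linarith

omit [IsGalois ℚ K] in
lemma sum_shift (τ : K ≃ₐ[ℚ] K) (i : ℕ) (a : K) :
    ∑ σ : K ≃ₐ[ℚ] K, Real.posLog ‖(((σ * τ ^ i) a : K) : ℂ)‖ =
      ∑ σ : K ≃ₐ[ℚ] K, Real.posLog ‖((σ a : K) : ℂ)‖ :=
  Fintype.sum_equiv (Equiv.mulRight (τ ^ i)) _ _ fun _ => rfl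

lemma V_ne (τ : K ≃ₐ[ℚ] K) {q J : ℕ} (hq : 2 ≤ q) (a : 𝓞 K)
    (hS : 0 < ∑ σ : K ≃ₐ[ℚ] K, Real.posLog ‖((σ (a : K) : K) : ℂ)‖) :
    V (act τ) q J a ≠ 0 := by
  rw [V_eq, Finset.prod_ne_zero_iff]
  intro i _
  rw [Finset.prod_ne_zero_iff]
  intro j hj
  have hij : (i : ℕ) < j := by
    have h1 : i < j := by simpa using hj
    exact Fin.lt_def.mp h1
  rw [Ne, sub_eq_zero]
  intro h
  have key : ∀ i : ℕ, ∑ σ : K ≃ₐ[ℚ] K, Real.posLog ‖emb σ (Z (act τ) q J a i)‖ =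
      (q : ℝ) ^ (J - i) * ∑ σ : K ≃ₐ[ℚ] K, Real.posLog ‖((σ (a : K) : K) : ℂ)‖ := by
    intro i
    rw [← sum_shift τ i (a : K), Finset.mul_sum]
    refine Finset.sum_congr rfl fun σ _ => ?_
    unfold Z
    rw [map_pow, norm_pow, Real.posLog_pow, emb_apply, iter_coe, ← AlgEquiv.mul_apply]
    push_cast
    rfl
  have h1 := key i
  have h2 := key j
  rw [h, h1] at h2
  have h3 := mul_right_cancel₀ hS.ne' h2
  have hq1 : (1 : ℝ) < q := by exact_mod_cast (by omega : 1 < q)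
  have hj' : (j : ℕ) ≤ J := Nat.lt_succ_iff.mp j.2
  have h4 := pow_right_injective₀ (by linarith) hq1.ne' h3
  omega

/-- the powers of the Frobenius automorphism of `P`: `τ x ≡ x ^ (p ^ k)` modulo `P` -/
def IsFrobPow (p : ℕ) (P : Ideal (𝓞 K)) (k : ℕ) (τ : K ≃ₐ[ℚ] K) : Prop :=
  ∀ x y : 𝓞 K, (y : K) = τ x - (x : K) ^ (p ^ k) → y ∈ P

/-- **the main inequality** -/
theorem main {p : ℕ} (hp : p.Prime) (P : Ideal (𝓞 K)) [hPp : P.IsPrime] (hpP : (p : 𝓞 K) ∈ P)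
    {e : ℕ} (he : (p : 𝓞 K) ∉ P ^ (e + 1)) {k : ℕ} (hk : 1 ≤ k) (τ : K ≃ₐ[ℚ] K)
    (hτ : IsFrobPow p P k τ) (J : ℕ) (x : K) (hx : IsIntegral ℤ x)
    (hM : 1 < ((minpoly ℤ x).map (Int.castRingHom ℂ)).mahlerMeasure) :
    (T k J : ℝ) * (minpoly ℤ x).natDegree * Real.log p ≤
      e * Nat.card {ρ : K ≃ₐ[ℚ] K // IsConj τ ρ} *
        ((minpoly ℤ x).natDegree * (((J : ℝ) + 1) / 2 * Real.log ((J : ℝ) + 1)) +
          J * (∑ i ∈ range (J + 1), ((p : ℝ) ^ k) ^ (J - i)) *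
            Real.log ((minpoly ℤ x).map (Int.castRingHom ℂ)).mahlerMeasure) := by
  classical
  set q := p ^ k with hq
  have hq2 : 2 ≤ q := by
    rw [hq]
    exact hp.two_le.trans (Nat.le_self_pow (by omega) p)
  set a : 𝓞 K := ⟨x, hx⟩ with ha
  have hax : (a : K) = x := rfl
  set n := (minpoly ℤ x).natDegree with hn
  set L := Real.log ((minpoly ℤ x).map (Int.castRingHom ℂ)).mahlerMeasure with hL
  have hL0 : 0 < L := Real.log_pos hM
  have hst : 0 < stab x := stab_pos x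
  have hst' : (0 : ℝ) < stab x := by exact_mod_cast hst
  have hS : ∑ σ : K ≃ₐ[ℚ] K, Real.posLog ‖((σ (a : K) : K) : ℂ)‖ = stab x * L :=
    sum_logPlus x hx
  have hS0 : 0 < ∑ σ : K ≃ₐ[ℚ] K, Real.posLog ‖((σ (a : K) : K) : ℂ)‖ := by
    rw [hS]; positivity
  have hV := V_ne (J := J) τ hq2 a hS0
  have ht : ∀ y : 𝓞 K, act τ y - y ^ q ∈ P := by
    intro y
    refine hτ y _ ?_
    change (algebraMap (𝓞 K) K) (act τ y - y ^ q) = _
    rw [map_sub, map_pow]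
    rfl
  -- the norm
  set v := V (act τ) q J a with hv
  set N : ℤ := Algebra.norm ℤ v with hN
  have hN0 : N ≠ 0 := by
    rw [hN, Ne, Algebra.norm_eq_zero_iff]
    exact hV
  set c := (Finset.univ.filter fun σ : K ≃ₐ[ℚ] K => σ * τ = τ * σ).card with hc
  have hmem : (N : 𝓞 K) ∈ P ^ (T k J * c) := by
    rw [hN, norm_eq]
    have h1 : ∏ σ : K ≃ₐ[ℚ] K, act σ v ∈
        P ^ (∑ σ : K ≃ₐ[ℚ] K, if σ * τ = τ * σ then T k J else 0) := by
      refine prod_mem_pow _ _ _ fun σ _ => ?_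
      split_ifs with h
      · rw [hv, act_V h]
        exact V_mem (act τ) hp hpP ht rfl (act σ a)
      · simp
    rw [← Finset.sum_filter, Finset.sum_const, smul_eq_mul, mul_comm] at h1
    exact h1
  have h2 := vals hp P hpP he hN0 hmem
  -- the archimedean side
  have h3 : Real.log |(N : ℝ)| = ∑ σ : K ≃ₐ[ℚ] K, Real.log ‖emb σ v‖ := by
    have h4 : ((N : ℤ) : ℂ) = ∏ σ : K ≃ₐ[ℚ] K, emb σ v := by
      have h5 := congrArg (fun y : 𝓞 K => algebraMap K ℂ (algebraMap (𝓞 K) K y)) (norm_eq v)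
      simp only [map_prod] at h5
      rw [← hN] at h5
      rw [map_intCast, map_intCast] at h5
      exact h5
    have h6 : |(N : ℝ)| = ∏ σ : K ≃ₐ[ℚ] K, ‖emb σ v‖ := by
      rw [← norm_prod, ← h4, Complex.norm_intCast]
    rw [h6, Real.log_prod]
    intro σ _
    rw [norm_ne_zero_iff, Ne, map_eq_zero_iff _ (emb_inj σ)]
    exact hV
  have h7 : Real.log |(N : ℝ)| ≤ Fintype.card (K ≃ₐ[ℚ] K) *
      (((J : ℝ) + 1) / 2 * Real.log ((J : ℝ) + 1)) +
      J * (∑ i ∈ range (J + 1), (q : ℝ) ^ (J - i)) * (stab x * L) := by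
    rw [h3]
    refine (Finset.sum_le_sum fun σ _ => arch σ τ q J a hV).trans (le_of_eq ?_)
    rw [Finset.sum_add_distrib, Finset.sum_const, nsmul_eq_mul, Finset.card_univ, ← Finset.mul_sum,
      Finset.sum_comm]
    congr 1
    rw [mul_assoc, Finset.sum_mul]
    congr 1
    refine Finset.sum_congr rfl fun i _ => ?_
    rw [← Finset.mul_sum, sum_shift, hS]
  have h8 := card_conj τ
  rw [← stab_mul x hx, ← hc] at h8
  set D := Nat.card {ρ : K ≃ₐ[ℚ] K // IsConj τ ρ} with hD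
  have h9 : (D : ℝ) * c = stab x * n := by exact_mod_cast h8
  have h10 : (Fintype.card (K ≃ₐ[ℚ] K) : ℝ) = stab x * n := by
    rw [← stab_mul x hx]; push_cast; rfl
  rw [h10] at h7
  have h11 : ((T k J * c : ℕ) : ℝ) * Real.log p ≤ e * (stab x * n *
      (((J : ℝ) + 1) / 2 * Real.log ((J : ℝ) + 1)) +
      J * (∑ i ∈ range (J + 1), (q : ℝ) ^ (J - i)) * (stab x * L)) :=
    h2.trans (mul_le_mul_of_nonneg_left h7 (by positivity))
  have h12 := mul_le_mul_of_nonneg_left h11 (show (0 : ℝ) ≤ D by positivity)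
  have h13 : (stab x : ℝ) * ((T k J : ℝ) * n * Real.log p) ≤ stab x *
      (e * D * (n * (((J : ℝ) + 1) / 2 * Real.log ((J : ℝ) + 1)) +
          J * (∑ i ∈ range (J + 1), (q : ℝ) ^ (J - i)) * L)) := by
    calc (stab x : ℝ) * ((T k J : ℝ) * n * Real.log p)
        = (D * c) * (T k J * Real.log p) := by rw [h9]; ring
      _ = D * (((T k J * c : ℕ) : ℝ) * Real.log p) := by push_cast; ring
      _ ≤ _ := h12
      _ = _ := by ring
  have h14 := le_of_mul_le_mul_left h13 hst'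
  have h15 : ((q : ℕ) : ℝ) = (p : ℝ) ^ k := by rw [hq]; push_cast; rfl
  rw [h15] at h14
  exact h14

end Pool.Agent.J6H8.FR
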