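import Mathlib
import Pool.Agent.J6H8.FR.Ring
import Pool.Agent.TH53.HR3

/-!
# Products of all differences of a finite family
-/

set_option autoImplicit false

open Finset

namespace Pool.Agent.J6H8.FR

section
variable {ι κ R S : Type*} [Fintype ι] [DecidableEq ι] [Fintype κ] [DecidableEq κ] [CommRing R]
  [CommRing S]

/-- the product of all differences -/
def W (z : ι → R) : R := ∏ a, ∏ b ∈ univ.erase a, (z a - z b)

lemma W_map (f : R →+* S) (z : ι → R) : f (W z) = W (fun a => f (z a)) := by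
  unfold W
  rw [map_prod]
  refine Finset.prod_congr rfl fun a _ => ?_
  rw [map_prod]
  refine Finset.prod_congr rfl fun b _ => ?_
  rw [map_sub]

lemma W_equiv (e : ι ≃ κ) (z : κ → R) : W (fun a => z (e a)) = W z := by
  unfold W
  rw [← Equiv.prod_comp e]
  refine Finset.prod_congr rfl fun a _ => ?_
  refine Finset.prod_bij' (fun b _ => e b) (fun b _ => e.symm b) ?_ ?_ ?_ ?_ ?_
  · intro b hb
    simpa using hb
  · intro b hb
    rw [mem_erase] at hb ⊢
    exact ⟨fun h => hb.1 (by rw [← h, e.apply_symm_apply]), mem_univ _⟩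
  · intro b _
    exact e.symm_apply_apply b
  · intro b _
    exact e.apply_symm_apply b
  · intro b _
    rfl

lemma W_ne [IsDomain R] {z : ι → R} (hz : Function.Injective z) : W z ≠ 0 := by
  unfold W
  rw [Finset.prod_ne_zero_iff]
  intro a _
  rw [Finset.prod_ne_zero_iff]
  intro b hb
  rw [sub_ne_zero]
  exact fun h => (ne_of_mem_erase hb) (hz h).symm

end

lemma norm_W_fin {N : ℕ} (v : Fin N → ℂ) : ‖W v‖ = ‖(Matrix.vandermonde v).det‖ ^ 2 := by
  unfold W
  rw [Matrix.det_vandermonde, norm_prod, norm_prod, pow_two]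
  have h1 : ∀ a : Fin N, ‖∏ b ∈ univ.erase a, (v a - v b)‖ =
      (∏ b ∈ Ioi a, ‖v b - v a‖) * ∏ b ∈ Iio a, ‖v a - v b‖ := by
    intro a
    have hu : univ.erase a = Ioi a ∪ Iio a := by
      ext b
      simp only [mem_erase, mem_univ, and_true, mem_union, mem_Ioi, mem_Iio]
      constructor
      · intro h
        rcases lt_trichotomy a b with h1 | h1 | h1
        · exact Or.inl h1
        · exact absurd h1.symm h
        · exact Or.inr h1
      · rintro (h | h)
        · exact h.ne'
        · exact h.ne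
    have hd : Disjoint (Ioi a) (Iio a) := by
      rw [Finset.disjoint_left]
      intro b h1 h2
      rw [mem_Ioi] at h1
      rw [mem_Iio] at h2
      exact lt_asymm h1 h2
    rw [hu, Finset.prod_union hd, norm_mul, norm_prod, norm_prod]
    congr 1
    exact Finset.prod_congr rfl fun b _ => norm_sub_rev _ _
  rw [Finset.prod_congr rfl fun a _ => h1 a, Finset.prod_mul_distrib]
  congr 1
  · refine Finset.prod_congr rfl fun a _ => ?_
    rw [norm_prod]
  · rw [Finset.prod_comm' (t' := univ) (s' := fun b => Ioi b)]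
    · refine Finset.prod_congr rfl fun a _ => ?_
      rw [norm_prod]
    · intro a b
      simp

lemma norm_W {ι : Type*} [Fintype ι] [DecidableEq ι] (v : ι → ℂ) :
    ‖W v‖ ≤ (Fintype.card ι : ℝ) ^ (Fintype.card ι) *
      ∏ a, (max 1 ‖v a‖) ^ (2 * (Fintype.card ι - 1)) := by
  have h1 := Pool.Agent.TH53.HR.vandermonde_le (fun i => v ((Fintype.equivFin ι).symm i))
  rw [← norm_W_fin, W_equiv (Fintype.equivFin ι).symm v] at h1
  rw [Equiv.prod_comp (Fintype.equivFin ι).symm
    (fun a => (max 1 ‖v a‖) ^ (2 * (Fintype.card ι - 1)))] at h1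
  exact h1

lemma T_two (k J : ℕ) : ∑ i : Fin (J + 1), ∑ j : Fin (J + 1),
    (if i ≠ j then k * (J - (max i j : Fin (J + 1))) + 1 else 0) = 2 * T k J := by
  have h1 : ∀ i j : Fin (J + 1), (if i ≠ j then k * (J - (max i j : Fin (J + 1))) + 1 else 0) =
      (if i < j then k * (J - j) + 1 else 0) + (if j < i then k * (J - i) + 1 else 0) := by
    intro i j
    rcases lt_trichotomy i j with h | h | h
    · rw [if_pos h.ne, if_pos h, if_neg (lt_asymm h), max_eq_right h.le, add_zero]
    · rw [if_neg (not_not.mpr h), if_neg (by rw [h]; exact lt_irrefl _),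
        if_neg (by rw [h]; exact lt_irrefl _)]
    · rw [if_pos h.ne', if_neg (lt_asymm h), if_pos h, max_eq_left h.le, zero_add]
  have h2 : ∑ i : Fin (J + 1), ∑ j : Fin (J + 1), (if i < j then k * (J - j) + 1 else 0) =
      T k J := by
    rw [T_eq]
    refine Finset.sum_congr rfl fun i _ => ?_
    rw [← Finset.sum_filter]
    congr 1
    ext j
    simp
  rw [Finset.sum_congr rfl fun i _ => Finset.sum_congr rfl fun j _ => h1 i j]
  simp only [Finset.sum_add_distrib]
  rw [h2, Finset.sum_comm, h2, two_mul]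

lemma W_mem {R : Type*} [CommRing R] {P : Ideal R} {ι : Type*} [Fintype ι] [DecidableEq ι]
    {k J : ℕ} (z : Fin (J + 1) × ι → R)
    (hz : ∀ (c : ι) (i j : Fin (J + 1)), i < j → z (j, c) - z (i, c) ∈ P ^ (k * (J - j) + 1)) :
    W z ∈ P ^ (2 * T k J * Fintype.card ι) := by
  unfold W
  have h1 : ∀ a : Fin (J + 1) × ι, ∀ b ∈ univ.erase a, z a - z b ∈
      P ^ (if a.2 = b.2 ∧ a.1 ≠ b.1 then k * (J - (max a.1 b.1 : Fin (J + 1))) + 1 else 0) := by
    rintro ⟨i, c⟩ ⟨j, d⟩ hb
    by_cases h : c = d ∧ i ≠ j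
    · rw [if_pos h]
      obtain ⟨rfl, hij⟩ := h
      rcases lt_or_gt_of_ne hij with h2 | h2
      · simp only [max_eq_right h2.le]
        rw [← neg_sub]
        exact neg_mem (hz c i j h2)
      · simp only [max_eq_left h2.le]
        exact hz c j i h2
    · rw [if_neg h, pow_zero, Ideal.one_eq_top]
      exact Submodule.mem_top
  have h2 := prod_mem_pow univ (fun a => ∏ b ∈ univ.erase a, (z a - z b)) _
    (fun a _ => prod_mem_pow (univ.erase a) (fun b => z a - z b) _ (h1 a))
  refine Ideal.pow_le_pow_right (le_of_eq ?_) h2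
  symm
  have h3 : ∀ a : Fin (J + 1) × ι, ∑ b ∈ univ.erase a,
      (if a.2 = b.2 ∧ a.1 ≠ b.1 then k * (J - (max a.1 b.1 : Fin (J + 1))) + 1 else 0) =
      ∑ j : Fin (J + 1), (if a.1 ≠ j then k * (J - (max a.1 j : Fin (J + 1))) + 1 else 0) := by
    rintro ⟨i, c⟩
    rw [Finset.sum_erase univ (by simp), Fintype.sum_prod_type]
    refine Finset.sum_congr rfl fun j _ => ?_
    simp only [ite_and]
    rw [Finset.sum_ite_eq univ c]
    simp
  rw [Finset.sum_congr rfl fun a _ => h3 a, Fintype.sum_prod_type]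
  simp only [Finset.sum_const, Finset.card_univ, smul_eq_mul]
  rw [← Finset.mul_sum, T_two, mul_comm]

end Pool.Agent.J6H8.FR
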