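import Mathlib
import Pool.Agent.J6H8.FR.Arch
import Pool.Agent.J6H8.FR.Gen
import Pool.Agent.J6H8.FC.Tower

/-!
# The main inequality over a normal subfield
-/

set_option autoImplicit false

open Finset Polynomial Module IntermediateField NumberField

namespace Pool.Agent.J6H8.FR

open Pool.Agent.J6H8.FC

variable {K : IntermediateField ℚ ℂ} [FiniteDimensional ℚ K] [IsGalois ℚ K]

section
variable (H : Subgroup (K ≃ₐ[ℚ] K)) {x : K}

omit [FiniteDimensional ℚ K] [IsGalois ℚ K] in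
lemma orbit_int (hx : IsIntegral ℤ x) (y : MulAction.orbit H x) : IsIntegral ℤ (y : K) := by
  obtain ⟨h, hh⟩ := y.2
  rw [← hh]
  exact hx.map (h : K ≃ₐ[ℚ] K)

/-- the conjugates of `x` under `H` -/
noncomputable def yI (hx : IsIntegral ℤ x) (y : MulAction.orbit H x) : 𝓞 K :=
  ⟨y, orbit_int H hx y⟩

/-- the family of the numbers -/
noncomputable def zz (hx : IsIntegral ℤ x) (τ : K ≃ₐ[ℚ] K) (q J : ℕ) (σ : K ≃ₐ[ℚ] K)
    (a : Fin (J + 1) × MulAction.orbit H x) : 𝓞 K :=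
  Z (act τ) q J (act σ (yI H hx a.2)) a.1

omit [FiniteDimensional ℚ K] [IsGalois ℚ K] in
lemma zz_coe (hx : IsIntegral ℤ x) (τ : K ≃ₐ[ℚ] K) (q J : ℕ) (σ : K ≃ₐ[ℚ] K)
    (a : Fin (J + 1) × MulAction.orbit H x) :
    ((zz H hx τ q J σ a : 𝓞 K) : K) =
      ((τ ^ (a.1 : ℕ) * σ) (a.2 : K)) ^ (q ^ (J - (a.1 : ℕ))) := by
  unfold zz Z
  have h1 : (((((act τ)^[(a.1 : ℕ)]) (act σ (yI H hx a.2))) ^ (q ^ (J - (a.1 : ℕ))) : 𝓞 K) : K) =
      ((((act τ)^[(a.1 : ℕ)]) (act σ (yI H hx a.2)) : 𝓞 K) : K) ^ (q ^ (J - (a.1 : ℕ))) := by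
    exact map_pow (algebraMap (𝓞 K) K) _ _
  rw [h1, iter_coe, act_coe, AlgEquiv.mul_apply]
  rfl

omit [FiniteDimensional ℚ K] [IsGalois ℚ K] in
lemma act_zz (hx : IsIntegral ℤ x) (τ : K ≃ₐ[ℚ] K) (q J : ℕ) (σ : K ≃ₐ[ℚ] K)
    (a : Fin (J + 1) × MulAction.orbit H x) :
    ((act σ (zz H hx τ q J 1 a) : 𝓞 K) : K) =
      ((σ * τ ^ (a.1 : ℕ)) (a.2 : K)) ^ (q ^ (J - (a.1 : ℕ))) := by
  rw [act_coe, zz_coe, map_pow, mul_one, AlgEquiv.mul_apply]

end

section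
variable {H' : Type*} [Group H'] (π : (K ≃ₐ[ℚ] K) →* H') {x : K}

omit [FiniteDimensional ℚ K] [IsGalois ℚ K] in
lemma act_W [Fintype (MulAction.orbit π.ker x)] [DecidableEq (MulAction.orbit π.ker x)]
    (hx : IsIntegral ℤ x) (τ : K ≃ₐ[ℚ] K) (q J : ℕ) (σ : K ≃ₐ[ℚ] K)
    (hc : π σ * π τ = π τ * π σ) :
    act σ (W (zz π.ker hx τ q J 1)) = W (zz π.ker hx τ q J σ) := by
  have hm : ∀ i : ℕ, σ⁻¹ * (τ ^ i)⁻¹ * σ * τ ^ i ∈ π.ker := by
    intro i
    rw [MonoidHom.mem_ker]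
    simp only [map_mul, map_inv, map_pow]
    have h2 : π σ * π τ ^ i = π τ ^ i * π σ := (show Commute (π σ) (π τ) from hc).pow_right i
    rw [mul_assoc, h2]
    group
  set e : Fin (J + 1) × MulAction.orbit π.ker x ≃ Fin (J + 1) × MulAction.orbit π.ker x :=
    Equiv.prodCongrRight fun i => MulAction.toPerm (⟨_, hm i⟩ : π.ker) with he
  rw [W_map, ← W_equiv e (zz π.ker hx τ q J σ)]
  congr 1
  funext a
  apply RingOfIntegers.ext
  rw [act_zz, zz_coe]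
  obtain ⟨i, y⟩ := a
  have h1 : (((e (i, y)).2 : MulAction.orbit π.ker x) : K) =
      (σ⁻¹ * (τ ^ (i : ℕ))⁻¹ * σ * τ ^ (i : ℕ)) (y : K) := rfl
  have h2 : (e (i, y)).1 = i := rfl
  rw [h1, h2, ← AlgEquiv.mul_apply]
  congr 2
  group

omit [IsGalois ℚ K] in
lemma sum_zz (hx : IsIntegral ℤ x) (τ : K ≃ₐ[ℚ] K) (q J : ℕ)
    (a : Fin (J + 1) × MulAction.orbit π.ker x) :
    ∑ σ : K ≃ₐ[ℚ] K, Real.posLog ‖emb σ (zz π.ker hx τ q J 1 a)‖ =
      (q : ℝ) ^ (J - (a.1 : ℕ)) * ∑ σ : K ≃ₐ[ℚ] K, Real.posLog ‖((σ x : K) : ℂ)‖ := by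
  obtain ⟨⟨g, hg⟩, hgx⟩ := a.2.2
  have hgx' : (a.2 : K) = g x := hgx.symm
  rw [Finset.mul_sum]
  refine Fintype.sum_equiv (Equiv.mulRight (τ ^ (a.1 : ℕ) * g)) _ _ fun σ => ?_
  have h1 : emb σ (zz π.ker hx τ q J 1 a) =
      (((σ * (τ ^ (a.1 : ℕ) * g)) x : K) : ℂ) ^ (q ^ (J - (a.1 : ℕ))) := by
    rw [emb_apply, zz_coe, map_pow, hgx']
    push_cast
    rfl
  rw [h1, norm_pow, Real.posLog_pow, Equiv.coe_mulRight]
  push_cast
  rfl

omit [IsGalois ℚ K] in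
lemma zz_inj {p k : ℕ} (hx : IsIntegral ℤ x) (τ : K ≃ₐ[ℚ] K) (J : ℕ) (hq : 2 ≤ p ^ k)
    (hS : 0 < ∑ σ : K ≃ₐ[ℚ] K, Real.posLog ‖((σ x : K) : ℂ)‖)
    (hr : ∀ h ∈ π.ker, ∀ r : ℕ, (h x) ^ (p ^ r) = x ^ (p ^ r) → h x = x) :
    Function.Injective (zz π.ker hx τ (p ^ k) J 1) := by
  intro a b hab
  have h1 := sum_zz π hx τ (p ^ k) J a
  rw [hab, sum_zz π hx τ (p ^ k) J b] at h1
  have h3 := mul_right_cancel₀ hS.ne' h1
  have hq1 : (1 : ℝ) < ((p ^ k : ℕ) : ℝ) := by exact_mod_cast (by omega : 1 < p ^ k)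
  have h4 := pow_right_injective₀ (by linarith) hq1.ne' h3
  have ha : (a.1 : ℕ) ≤ J := Nat.lt_succ_iff.mp a.1.2
  have hb : (b.1 : ℕ) ≤ J := Nat.lt_succ_iff.mp b.1.2
  have h5 : a.1 = b.1 := Fin.ext (by omega)
  obtain ⟨i, y⟩ := a
  obtain ⟨j, y'⟩ := b
  simp only at h5
  subst h5
  have h6 := congrArg (fun z : 𝓞 K => (z : K)) hab
  simp only [zz_coe, mul_one] at h6
  rw [← map_pow, ← map_pow] at h6
  have h7 := (τ ^ (i : ℕ)).injective h6
  obtain ⟨⟨g, hg⟩, hgx⟩ := y.2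
  obtain ⟨⟨g', hg'⟩, hgx'⟩ := y'.2
  have e1 : (y : K) = g x := hgx.symm
  have e2 : (y' : K) = g' x := hgx'.symm
  have h8 : (y : K) = y' := by
    rw [e1, e2] at h7 ⊢
    have h9 := congrArg (fun z : K => g⁻¹ z) h7
    simp only [map_pow] at h9
    rw [← AlgEquiv.mul_apply, ← AlgEquiv.mul_apply, inv_mul_cancel, ← pow_mul] at h9
    have h10 := hr (g⁻¹ * g') (π.ker.mul_mem (π.ker.inv_mem hg) hg') _ h9.symm
    have h11 := congrArg (fun z : K => g z) h10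
    rw [← AlgEquiv.mul_apply, mul_inv_cancel_left] at h11
    exact h11.symm
  rw [Subtype.ext h8]

omit [FiniteDimensional ℚ K] [IsGalois ℚ K] in
lemma archW [Fintype (MulAction.orbit π.ker x)] [DecidableEq (MulAction.orbit π.ker x)]
    (hx : IsIntegral ℤ x) (σ τ : K ≃ₐ[ℚ] K) (q J : ℕ)
    (hV : W (zz π.ker hx τ q J 1) ≠ 0) :
    Real.log ‖emb σ (W (zz π.ker hx τ q J 1))‖ ≤
      (Fintype.card (Fin (J + 1) × MulAction.orbit π.ker x) : ℝ) *
        Real.log (Fintype.card (Fin (J + 1) × MulAction.orbit π.ker x) : ℝ) +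
      2 * ((Fintype.card (Fin (J + 1) × MulAction.orbit π.ker x) - 1 : ℕ) : ℝ) *
        ∑ a, Real.posLog ‖emb σ (zz π.ker hx τ q J 1 a)‖ := by
  have hne : emb σ (W (zz π.ker hx τ q J 1)) ≠ 0 := by
    rw [Ne, map_eq_zero_iff _ (emb_inj σ)]
    exact hV
  have h1 := norm_W (fun a => emb σ (zz π.ker hx τ q J 1 a))
  rw [← W_map] at h1
  have hpos : 0 < ‖emb σ (W (zz π.ker hx τ q J 1))‖ := norm_pos_iff.mpr hne
  have h2 := Real.log_le_log hpos h1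
  set N := Fintype.card (Fin (J + 1) × MulAction.orbit π.ker x) with hN
  have hP : ∏ a, (max 1 ‖emb σ (zz π.ker hx τ q J 1 a)‖) ^ (2 * (N - 1)) ≠ 0 :=
    Finset.prod_ne_zero_iff.mpr fun i _ => by positivity
  have hN0 : (N : ℝ) ^ N ≠ 0 := by
    intro h0
    rw [h0, zero_mul] at h1
    linarith
  rw [Real.log_mul hN0 hP, Real.log_pow, Real.log_prod (fun i _ => by positivity)] at h2
  refine h2.trans (le_of_eq ?_)
  congr 1
  rw [Finset.mul_sum]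
  refine Finset.sum_congr rfl fun a _ => ?_
  rw [Real.log_pow, ← Real.posLog_eq_log_max_one (norm_nonneg _)]
  push_cast
  ring

/-- **the main inequality** over a normal subfield -/
theorem mainRel [Fintype H'] {p : ℕ} (hp : p.Prime) (P : Ideal (𝓞 K)) [hPp : P.IsPrime]
    (hpP : (p : 𝓞 K) ∈ P) {e : ℕ} (he : (p : 𝓞 K) ∉ P ^ (e + 1)) {k : ℕ} (hk : 1 ≤ k)
    (τ : K ≃ₐ[ℚ] K) (hτ : IsFrobPow p P k τ) (J : ℕ) (hx : IsIntegral ℤ x)
    (hM : 1 < ((minpoly ℤ x).map (Int.castRingHom ℂ)).mahlerMeasure)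
    (hs : Function.Surjective π) {m : ℕ} (hm0 : 0 < m)
    [Fintype (MulAction.orbit π.ker x)] (hm : Fintype.card (MulAction.orbit π.ker x) = m)
    (hr : ∀ h ∈ π.ker, ∀ r : ℕ, (h x) ^ (p ^ r) = x ^ (p ^ r) → h x = x) :
    (T k J : ℝ) * (minpoly ℤ x).natDegree * Real.log p ≤
      e * Nat.card {ρ : H' // IsConj (π τ) ρ} *
        ((minpoly ℤ x).natDegree * (((J : ℝ) + 1) / 2 * Real.log (m * ((J : ℝ) + 1))) +
          (m * ((J : ℝ) + 1) - 1) * (∑ i ∈ range (J + 1), ((p : ℝ) ^ k) ^ (J - i)) *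
            Real.log ((minpoly ℤ x).map (Int.castRingHom ℂ)).mahlerMeasure) := by
  classical
  set q := p ^ k with hq
  have hq2 : 2 ≤ q := by
    rw [hq]
    exact hp.two_le.trans (Nat.le_self_pow (by omega) p)
  set n := (minpoly ℤ x).natDegree with hn
  set L := Real.log ((minpoly ℤ x).map (Int.castRingHom ℂ)).mahlerMeasure with hL
  have hL0 : 0 < L := Real.log_pos hM
  have hst : 0 < stab x := stab_pos x
  have hst' : (0 : ℝ) < stab x := by exact_mod_cast hst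
  have hS : ∑ σ : K ≃ₐ[ℚ] K, Real.posLog ‖((σ x : K) : ℂ)‖ = stab x * L :=
    sum_logPlus x hx
  have hS0 : 0 < ∑ σ : K ≃ₐ[ℚ] K, Real.posLog ‖((σ x : K) : ℂ)‖ := by
    rw [hS]; positivity
  have hV : W (zz π.ker hx τ q J 1) ≠ 0 := W_ne (zz_inj π hx τ J hq2 hS0 hr)
  have ht : ∀ y : 𝓞 K, act τ y - y ^ q ∈ P := by
    intro y
    refine hτ y _ ?_
    change (algebraMap (𝓞 K) K) (act τ y - y ^ q) = _
    rw [map_sub, map_pow]
    rfl
  set v := W (zz π.ker hx τ q J 1) with hv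
  set N : ℤ := Algebra.norm ℤ v with hN
  have hN0 : N ≠ 0 := by
    rw [hN, Ne, Algebra.norm_eq_zero_iff]
    exact hV
  set c := (Finset.univ.filter fun σ : K ≃ₐ[ℚ] K => π σ * π τ = π τ * π σ).card with hc
  have hmem : (N : 𝓞 K) ∈ P ^ (2 * T k J * m * c) := by
    rw [hN, norm_eq]
    have h1 : ∏ σ : K ≃ₐ[ℚ] K, act σ v ∈
        P ^ (∑ σ : K ≃ₐ[ℚ] K, if π σ * π τ = π τ * π σ then 2 * T k J * m else 0) := by
      refine prod_mem_pow _ _ _ fun σ _ => ?_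
      split_ifs with h
      · rw [hv, act_W π hx τ q J σ h, ← hm]
        refine W_mem _ fun y i j hij => ?_
        exact Z_mem (act τ) hp hpP ht rfl _ (Fin.lt_def.mp hij) (Nat.lt_succ_iff.mp j.2)
      · simp
    rw [← Finset.sum_filter, Finset.sum_const, smul_eq_mul, mul_comm] at h1
    exact h1
  have h2 := vals hp P hpP he hN0 hmem
  have h3 : Real.log |(N : ℝ)| = ∑ σ : K ≃ₐ[ℚ] K, Real.log ‖emb σ v‖ := by
    have h4 : ((N : ℤ) : ℂ) = ∏ σ : K ≃ₐ[ℚ] K, emb σ v := by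
      have h5 := congrArg (fun y : 𝓞 K => algebraMap K ℂ (algebraMap (𝓞 K) K y)) (norm_eq v)
      simp only [map_prod] at h5
      rw [← hN] at h5
      rw [map_intCast, map_intCast] at h5
      exact h5
    have h6 : |(N : ℝ)| = ∏ σ : K ≃ₐ[ℚ] K, ‖emb σ v‖ := by
      rw [← norm_prod, ← h4, Complex.norm_intCast]
    rw [h6, Real.log_prod]
    intro σ _
    rw [norm_ne_zero_iff, Ne, map_eq_zero_iff _ (emb_inj σ)]
    exact hV
  have hcard : Fintype.card (Fin (J + 1) × MulAction.orbit π.ker x) = (J + 1) * m := by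
    rw [Fintype.card_prod, Fintype.card_fin, hm]
  have hcard1 : (((J + 1) * m - 1 : ℕ) : ℝ) = m * ((J : ℝ) + 1) - 1 := by
    rw [Nat.cast_sub (Nat.mul_pos (Nat.succ_pos J) hm0)]
    push_cast
    ring
  have h7 : Real.log |(N : ℝ)| ≤ Fintype.card (K ≃ₐ[ℚ] K) *
      (m * ((J : ℝ) + 1) * Real.log (m * ((J : ℝ) + 1))) +
      2 * (m * ((J : ℝ) + 1) - 1) * (m * ((∑ i ∈ range (J + 1), (q : ℝ) ^ (J - i)) *
        (stab x * L))) := by
    rw [h3]
    refine (Finset.sum_le_sum fun σ _ => archW π hx σ τ q J hV).trans (le_of_eq ?_)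
    rw [hcard, hcard1]
    rw [Finset.sum_add_distrib, Finset.sum_const, nsmul_eq_mul, Finset.card_univ, ← Finset.mul_sum,
      Finset.sum_comm]
    congr 1
    · push_cast
      rw [mul_comm ((J : ℝ) + 1) m]
    · congr 1
      rw [Finset.sum_congr rfl fun a _ => sum_zz π hx τ q J a, hS, ← Finset.sum_mul,
        Fintype.sum_prod_type]
      simp only [Finset.sum_const, Finset.card_univ, nsmul_eq_mul]
      rw [hm, ← Finset.mul_sum, Fin.sum_univ_eq_sum_range (fun i => (q : ℝ) ^ (J - i)), mul_assoc]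
  have h8 : Nat.card {ρ : H' // IsConj (π τ) ρ} * c = stab x * n := by
    rw [hn, stab_mul x hx, hc, card_preimage π hs (fun s => s * π τ = π τ * s),
      mul_left_comm, card_conj (π τ)]
    have h81 := card_preimage π hs (fun _ => True)
    simp only [Finset.filter_true, Finset.card_univ] at h81
    exact h81.symm
  set D := Nat.card {ρ : H' // IsConj (π τ) ρ} with hD
  have h9 : (D : ℝ) * c = stab x * n := by exact_mod_cast h8
  have h10 : (Fintype.card (K ≃ₐ[ℚ] K) : ℝ) = stab x * n := by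
    rw [← stab_mul x hx]; push_cast; rfl
  rw [h10] at h7
  set Q := ∑ i ∈ range (J + 1), (q : ℝ) ^ (J - i) with hQ
  set l := Real.log (m * ((J : ℝ) + 1)) with hl
  have hmr : (0 : ℝ) < m := by exact_mod_cast hm0
  have h11 : ((2 * T k J * m * c : ℕ) : ℝ) * Real.log p ≤ e * (stab x * n *
      (m * ((J : ℝ) + 1) * l) + 2 * (m * ((J : ℝ) + 1) - 1) * (m * (Q * (stab x * L)))) :=
    h2.trans (mul_le_mul_of_nonneg_left h7 (by positivity))
  have h12 := mul_le_mul_of_nonneg_left h11 (show (0 : ℝ) ≤ D by positivity)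
  have h13 : (2 * m * stab x : ℝ) * ((T k J : ℝ) * n * Real.log p) ≤ (2 * m * stab x) *
      (e * D * (n * (((J : ℝ) + 1) / 2 * l) + (m * ((J : ℝ) + 1) - 1) * Q * L)) := by
    calc (2 * m * stab x : ℝ) * ((T k J : ℝ) * n * Real.log p)
        = (D * c) * (2 * m * (T k J * Real.log p)) := by rw [h9]; ring
      _ = D * (((2 * T k J * m * c : ℕ) : ℝ) * Real.log p) := by push_cast; ring
      _ ≤ _ := h12
      _ = _ := by ring
  have h14 := le_of_mul_le_mul_left h13 (by positivity)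
  have h15 : ((q : ℕ) : ℝ) = (p : ℝ) ^ k := by rw [hq]; push_cast; rfl
  rw [hQ, h15] at h14
  exact h14

end

end Pool.Agent.J6H8.FR
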