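import Mathlib
import Pool.Agent.J6H8.FR.Rel

/-!
# Roots of unity and the main inequality without a condition on the conjugates
-/

set_option autoImplicit false

open Finset Polynomial Module IntermediateField NumberField

namespace Pool.Agent.J6H8.FR

open Pool.Agent.J6H8.FC

lemma sub_one_mem {R : Type*} [CommRing R] {P : Ideal R} [hP : P.IsPrime] {p : ℕ} (hp : p.Prime)
    (hpP : (p : R) ∈ P) (t : ℕ) : ∀ x : R, x ^ (p ^ t) - 1 ∈ P → x - 1 ∈ P := by
  induction t with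
  | zero =>
    intro x hx
    simpa using hx
  | succ t ih =>
    intro x hx
    apply ih
    set y := x ^ (p ^ t) with hy
    rw [pow_succ, pow_mul, ← hy] at hx
    have h1 := add_pow_prime_eq hp (y - 1) 1
    rw [sub_add_cancel] at h1
    have h2 : (y - 1) ^ p ∈ P := by
      have e : (y - 1) ^ p = (y ^ p - 1) - (p : R) * ((y - 1) * 1 *
          ∑ k ∈ Ioo 0 p, (y - 1) ^ (k - 1) * 1 ^ (p - k - 1) * ↑(p.choose k / p)) := by
        rw [h1]; ring
      rw [e]
      exact P.sub_mem hx (P.mul_mem_right _ hpP)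
    exact hP.mem_of_pow_mem _ h2

lemma root_bound {R : Type*} [CommRing R] [IsDomain R] {P : Ideal R} [hP : P.IsPrime] {p : ℕ}
    (hp : p.Prime) (hpP : (p : R) ∈ P) {e : ℕ} (he : (p : R) ∉ P ^ (e + 1)) {t : ℕ} {ζ : R}
    (hζ : IsPrimitiveRoot ζ (p ^ t)) : p ^ t ≤ 2 * e := by
  have he1 : 1 ≤ e := by
    rcases Nat.eq_zero_or_pos e with h0 | h0
    · exfalso
      apply he
      rw [h0, zero_add, pow_one]
      exact hpP
    · exact h0
  rcases t with _ | s
  · rw [pow_zero]; omega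
  have : Fact p.Prime := ⟨hp⟩
  have h1 := eval_one_cyclotomic_prime_pow (R := R) (p := p) s
  rw [cyclotomic_eq_prod_X_sub_primitiveRoots hζ, eval_prod] at h1
  simp only [eval_sub, eval_X, eval_C] at h1
  have h2 : ∀ μ ∈ primitiveRoots (p ^ (s + 1)) R, (1 : R) - μ ∈ P ^ 1 := by
    intro μ hμ
    have h3 := isPrimitiveRoot_of_mem_primitiveRoots hμ
    have h4 : μ - 1 ∈ P := sub_one_mem hp hpP (s + 1) μ (by rw [h3.pow_eq_one, sub_self]; exact P.zero_mem)
    rw [pow_one, ← neg_sub]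
    exact P.neg_mem h4
  have h5 := prod_mem_pow _ _ _ h2
  rw [h1, Finset.sum_const, smul_eq_mul, mul_one, hζ.card_primitiveRoots,
    Nat.totient_prime_pow_succ hp] at h5
  have h6 : p ^ s * (p - 1) ≤ e := by
    by_contra hcon
    push Not at hcon
    exact he (Ideal.pow_le_pow_right hcon h5)
  have h7 : p ≤ 2 * (p - 1) := by
    have := hp.two_le
    omega
  calc p ^ (s + 1) = p ^ s * p := pow_succ p s
    _ ≤ p ^ s * (2 * (p - 1)) := Nat.mul_le_mul_left _ h7
    _ = 2 * (p ^ s * (p - 1)) := by ring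
    _ ≤ 2 * e := Nat.mul_le_mul_left _ h6

variable {K : IntermediateField ℚ ℂ} [FiniteDimensional ℚ K] [IsGalois ℚ K]

omit [FiniteDimensional ℚ K] [IsGalois ℚ K] in
lemma unit_pow {p : ℕ} (hp : p.Prime) (P : Ideal (𝓞 K)) [hPp : P.IsPrime] (hpP : (p : 𝓞 K) ∈ P)
    {e : ℕ} (he : (p : 𝓞 K) ∉ P ^ (e + 1)) (x y : K) (r : ℕ) (h : y ^ (p ^ r) = x ^ (p ^ r)) :
    y ^ (p ^ Nat.log p (2 * e)) = x ^ (p ^ Nat.log p (2 * e)) := by
  rcases eq_or_ne x 0 with h0 | h0
  · rw [h0, zero_pow (pow_ne_zero _ hp.ne_zero)] at h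
    rw [h0, pow_eq_zero_iff (pow_ne_zero _ hp.ne_zero)] at *
    rw [h]
  set ζ := y / x with hζ
  have h1 : ζ ^ (p ^ r) = 1 := by
    rw [hζ, div_pow, h, div_self (pow_ne_zero _ h0)]
  obtain ⟨t, ht, ht'⟩ := (Nat.dvd_prime_pow hp).mp (orderOf_dvd_of_pow_eq_one h1)
  have h2 : IsPrimitiveRoot ζ (p ^ t) := by
    rw [← ht']
    exact IsPrimitiveRoot.orderOf ζ
  have : NeZero (p ^ t) := ⟨pow_ne_zero _ hp.ne_zero⟩
  have h3 := root_bound hp hpP he h2.toInteger_isPrimitiveRoot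
  have h4 : t ≤ Nat.log p (2 * e) := Nat.le_log_of_pow_le hp.one_lt h3
  have h5 : ζ ^ (p ^ Nat.log p (2 * e)) = 1 := by
    obtain ⟨d, hd⟩ := pow_dvd_pow p h4
    rw [hd, pow_mul, h2.pow_eq_one, one_pow]
  rw [hζ, div_pow, div_eq_one_iff_eq (pow_ne_zero _ h0)] at h5
  exact h5

section
variable {H' : Type*} [Group H'] (π : (K ≃ₐ[ℚ] K) →* H') {x : K}

/-- **the main inequality** without a condition on the conjugates -/
theorem mainW [Fintype H'] {p : ℕ} (hp : p.Prime) (P : Ideal (𝓞 K)) [hPp : P.IsPrime]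
    (hpP : (p : 𝓞 K) ∈ P) {e : ℕ} (he : (p : 𝓞 K) ∉ P ^ (e + 1)) {k : ℕ} (hk : 1 ≤ k)
    (τ : K ≃ₐ[ℚ] K) (hτ : IsFrobPow p P k τ) (J : ℕ) (hx : IsIntegral ℤ x)
    (hM : 1 < ((minpoly ℤ x).map (Int.castRingHom ℂ)).mahlerMeasure)
    (hs : Function.Surjective π) {m : ℕ}
    [Fintype (MulAction.orbit π.ker x)] (hm : Fintype.card (MulAction.orbit π.ker x) = m) (s : ℕ)
    (hr : ∀ h ∈ π.ker, ∀ r : ℕ, (h x) ^ (p ^ r) = x ^ (p ^ r) → (h x) ^ (p ^ s) = x ^ (p ^ s)) :
    (T k J : ℝ) * (minpoly ℤ x).natDegree * Real.log p ≤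
      e * Nat.card {ρ : H' // IsConj (π τ) ρ} *
        ((minpoly ℤ x).natDegree * (((J : ℝ) + 1) / 2 * Real.log (m * ((J : ℝ) + 1))) +
          (p : ℝ) ^ s * (m * ((J : ℝ) + 1) - 1) * (∑ i ∈ range (J + 1), ((p : ℝ) ^ k) ^ (J - i)) *
            Real.log ((minpoly ℤ x).map (Int.castRingHom ℂ)).mahlerMeasure) := by
  classical
  set x' : K := x ^ (p ^ s) with hx'
  have hxi : IsIntegral ℤ x' := hx.pow _
  set L := Real.log ((minpoly ℤ x).map (Int.castRingHom ℂ)).mahlerMeasure with hL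
  set L' := Real.log ((minpoly ℤ x').map (Int.castRingHom ℂ)).mahlerMeasure with hL'
  have hL0 : 0 < L := Real.log_pos hM
  have hst : (0 : ℝ) < stab x := by exact_mod_cast stab_pos x
  have hst' : (0 : ℝ) < stab x' := by exact_mod_cast stab_pos x'
  have hSL : (stab x' : ℝ) * L' = (p : ℝ) ^ s * (stab x * L) := by
    rw [hL', hL, ← sum_logPlus x' hxi, ← sum_logPlus x hx, Finset.mul_sum]
    refine Finset.sum_congr rfl fun σ _ => ?_
    rw [hx', map_pow, IntermediateField.coe_pow, norm_pow, Real.posLog_pow]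
    push_cast
    rfl
  have hp0 : (0 : ℝ) < (p : ℝ) ^ s := by
    have : (0 : ℝ) < p := by exact_mod_cast hp.pos
    positivity
  have hL'0 : 0 < L' := by
    have h1 : 0 < (stab x' : ℝ) * L' := by rw [hSL]; positivity
    exact (pos_iff_pos_of_mul_pos h1).mp hst'
  have hM' : 1 < ((minpoly ℤ x').map (Int.castRingHom ℂ)).mahlerMeasure :=
    (Real.log_pos_iff (mahlerMeasure_nonneg _)).mp hL'0
  have : Finite (MulAction.orbit π.ker x') := (Set.finite_range _).to_subtype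
  have := Fintype.ofFinite (MulAction.orbit π.ker x')
  have hm'0 : 0 < Fintype.card (MulAction.orbit π.ker x') :=
    Fintype.card_pos_iff.mpr ⟨⟨x', MulAction.mem_orbit_self x'⟩⟩
  have hm' : Fintype.card (MulAction.orbit π.ker x') ≤ m := by
    rw [← hm]
    have hmem : ∀ y : MulAction.orbit π.ker x, (y : K) ^ (p ^ s) ∈ MulAction.orbit π.ker x' := by
      intro y
      obtain ⟨h, hh⟩ := y.2
      refine ⟨h, ?_⟩
      rw [← hh]
      exact map_pow (h : K ≃ₐ[ℚ] K) x (p ^ s)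
    refine Fintype.card_le_of_surjective (fun y : MulAction.orbit π.ker x =>
      (⟨(y : K) ^ (p ^ s), hmem y⟩ : MulAction.orbit π.ker x')) ?_
    rintro ⟨y, h, hh⟩
    refine ⟨⟨h • x, h, rfl⟩, Subtype.ext ?_⟩
    exact (map_pow (h : K ≃ₐ[ℚ] K) x (p ^ s)).symm.trans hh
  have hr' : ∀ h ∈ π.ker, ∀ r : ℕ, (h x') ^ (p ^ r) = x' ^ (p ^ r) → h x' = x' := by
    intro h hh r hrr
    rw [hx', map_pow, ← pow_mul, ← pow_mul, ← pow_add] at hrr
    rw [hx', map_pow]
    exact hr h hh _ hrr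
  have h1 := mainRel π hp P hpP he hk τ hτ J hxi hM' hs hm'0 rfl hr'
  set m' := Fintype.card (MulAction.orbit π.ker x') with hm'def
  set D := Nat.card {ρ : H' // IsConj (π τ) ρ} with hD
  set Q := ∑ i ∈ range (J + 1), ((p : ℝ) ^ k) ^ (J - i) with hQ
  have hQ0 : 0 ≤ Q := Finset.sum_nonneg fun i _ => by positivity
  set n := (minpoly ℤ x).natDegree with hn
  set n' := (minpoly ℤ x').natDegree with hn'
  have hnn : (stab x' : ℝ) * n' = stab x * n := by
    have h2 := stab_mul x hx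
    have h3 := stab_mul x' hxi
    rw [← h2] at h3
    exact_mod_cast h3
  have hmr : (m' : ℝ) ≤ m := by exact_mod_cast hm'
  have hmr1 : (1 : ℝ) ≤ m' := by exact_mod_cast hm'0
  have hl : Real.log (m' * ((J : ℝ) + 1)) ≤ Real.log (m * ((J : ℝ) + 1)) := by
    refine Real.log_le_log (by positivity) ?_
    exact mul_le_mul_of_nonneg_right hmr (by positivity)
  have h2 := mul_le_mul_of_nonneg_left h1 hst'.le
  have h3 : (stab x : ℝ) * ((T k J : ℝ) * n * Real.log p) ≤ stab x * (e * D *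
      (n * (((J : ℝ) + 1) / 2 * Real.log (m * ((J : ℝ) + 1))) +
      (p : ℝ) ^ s * (m * ((J : ℝ) + 1) - 1) * Q * L)) := by
    calc (stab x : ℝ) * ((T k J : ℝ) * n * Real.log p)
        = stab x' * ((T k J : ℝ) * n' * Real.log p) := by
          calc _ = (stab x * n) * (T k J * Real.log p) := by ring
            _ = (stab x' * n') * (T k J * Real.log p) := by rw [hnn]
            _ = _ := by ring
      _ ≤ stab x' * (e * D * (n' * (((J : ℝ) + 1) / 2 * Real.log (m' * ((J : ℝ) + 1))) +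
          (m' * ((J : ℝ) + 1) - 1) * Q * L')) := h2
      _ = e * D * ((stab x * n) * (((J : ℝ) + 1) / 2 * Real.log (m' * ((J : ℝ) + 1))) +
          (m' * ((J : ℝ) + 1) - 1) * Q * ((p : ℝ) ^ s * (stab x * L))) := by
          rw [← hnn, ← hSL]; ring
      _ ≤ e * D * ((stab x * n) * (((J : ℝ) + 1) / 2 * Real.log (m * ((J : ℝ) + 1))) +
          (m * ((J : ℝ) + 1) - 1) * Q * ((p : ℝ) ^ s * (stab x * L))) := by
          gcongr
      _ = _ := by ring
  exact le_of_mul_le_mul_left h3 hst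

end

end Pool.Agent.J6H8.FR
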