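import Mathlib
import Pool.Agent.J6H8.FR.Unit

/-!
# The main inequality with general exponents, and ramified primes
-/

set_option autoImplicit false

open Finset Polynomial Module IntermediateField NumberField

namespace Pool.Agent.J6H8.FR

open Pool.Agent.J6H8.FC

section ring
variable {R : Type*} [CommRing R] {P : Ideal R} {p : ℕ}

lemma pow_prime_mem2 (hp : p.Prime) {e : ℕ} (hpP : (p : R) ∈ P ^ e) {a b : ℕ} (hb1 : b ≤ p * a)
    (hb2 : b ≤ a + e) {x y : R} (h : x - y ∈ P ^ a) : x ^ p - y ^ p ∈ P ^ b := by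
  obtain ⟨z, hz⟩ : ∃ z, z = x - y := ⟨_, rfl⟩
  have hx : x = z + y := by rw [hz]; ring
  rw [← hz] at h
  have h1 := add_pow_prime_eq hp z y
  rw [hx, h1]
  have h2 : z ^ p ∈ P ^ b := by
    have h3 : z ^ p ∈ (P ^ a) ^ p := Ideal.pow_mem_pow h p
    rw [← pow_mul] at h3
    exact Ideal.pow_le_pow_right (by rw [mul_comm]; exact hb1) h3
  have h4 : (p : R) * z ∈ P ^ b := by
    have h5 : (p : R) * z ∈ P ^ (e + a) := by
      rw [pow_add]
      exact Ideal.mul_mem_mul hpP h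
    exact Ideal.pow_le_pow_right (by omega) h5
  have e : z ^ p + y ^ p + (p : R) * z * y *
      ∑ k ∈ Ioo 0 p, z ^ (k - 1) * y ^ (p - k - 1) * ↑(p.choose k / p) - y ^ p =
      z ^ p + ((p : R) * z) * (y *
      ∑ k ∈ Ioo 0 p, z ^ (k - 1) * y ^ (p - k - 1) * ↑(p.choose k / p)) := by ring
  rw [e]
  exact Ideal.add_mem _ h2 (Ideal.mul_mem_right _ _ h4)

lemma pow_pow_min (hp : p.Prime) {e : ℕ} (hpP : (p : R) ∈ P ^ e) {x y : R} (h : x - y ∈ P)
    (r : ℕ) : x ^ (p ^ r) - y ^ (p ^ r) ∈ P ^ (min (p ^ r) e) := by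
  induction r with
  | zero =>
    have h1 : min (p ^ 0) e ≤ 1 := by rw [pow_zero]; exact min_le_left _ _
    have h2 : x ^ (p ^ 0) - y ^ (p ^ 0) ∈ P ^ 1 := by simpa using h
    exact Ideal.pow_le_pow_right h1 h2
  | succ r ih =>
    rw [pow_succ p r, pow_mul x, pow_mul y]
    refine pow_prime_mem2 hp hpP ?_ ?_ ih
    · rcases le_total (p ^ r) e with h1 | h1
      · rw [min_eq_left h1, mul_comm p]
        exact min_le_left _ _
      · rw [min_eq_right h1]
        exact (min_le_right _ _).trans (Nat.le_mul_of_pos_left e hp.pos)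
    · exact (min_le_right _ _).trans (Nat.le_add_left _ _)

lemma pow_pow_ram (hp : p.Prime) {e s : ℕ} (hpP : (p : R) ∈ P ^ e) (hes : e ≤ p ^ s) {x y : R}
    (h : x - y ∈ P) (r : ℕ) : x ^ (p ^ r) - y ^ (p ^ r) ∈ P ^ (e * (r + 1 - s)) := by
  have h1 : ∀ d : ℕ, x ^ (p ^ (s + d)) - y ^ (p ^ (s + d)) ∈ P ^ (e * (d + 1)) := by
    intro d
    induction d with
    | zero =>
      have h2 := pow_pow_min hp hpP h s
      rw [min_eq_right hes] at h2
      simpa using h2
    | succ d ih =>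
      rw [← add_assoc, pow_succ p (s + d), pow_mul x, pow_mul y]
      refine pow_prime_mem2 hp hpP ?_ ?_ ih
      · have h2 := hp.two_le
        calc e * (d + 1 + 1) ≤ e * (2 * (d + 1)) := Nat.mul_le_mul_left _ (by omega)
          _ = 2 * (e * (d + 1)) := by ring
          _ ≤ p * (e * (d + 1)) := Nat.mul_le_mul_right _ h2
      · exact le_of_eq (by ring)
  rcases Nat.lt_or_ge r s with h2 | h2
  · have h3 : r + 1 - s = 0 := by omega
    rw [h3, mul_zero, pow_zero, Ideal.one_eq_top]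
    exact Submodule.mem_top
  · obtain ⟨d, rfl⟩ := Nat.exists_eq_add_of_le h2
    have h3 : s + d + 1 - s = d + 1 := by omega
    rw [h3]
    exact h1 d

lemma Z_mem2 (t : R →+* R) {q : ℕ} {E : ℕ → ℕ}
    (hpow : ∀ x y : R, x - y ∈ P → ∀ r, x ^ (p ^ r) - y ^ (p ^ r) ∈ P ^ (E r))
    (ht : ∀ x, t x - x ^ q ∈ P) {k J : ℕ} (hq : q = p ^ k) (a : R) {i j : ℕ} (hij : i < j)
    (hj : j ≤ J) : Z t q J a j - Z t q J a i ∈ P ^ (E (k * (J - j))) := by
  obtain ⟨d, rfl⟩ : ∃ d, j = i + d := ⟨j - i, by omega⟩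
  unfold Z
  have h1 := iter_mem t ht ((t^[i]) a) d
  have h2 := hpow _ _ h1 (k * (J - (i + d)))
  rw [pow_mul p, ← hq] at h2
  have e1 : (t^[i + d]) a = (t^[d]) ((t^[i]) a) := by
    rw [Nat.add_comm, Function.iterate_add_apply]
  have e2 : q ^ (J - i) = q ^ d * q ^ (J - (i + d)) := by
    rw [← pow_add]; congr 1; omega
  rw [e1, e2, pow_mul ((t^[i]) a)]
  exact h2

/-- the exponent -/
def TE (E : ℕ → ℕ) (J : ℕ) : ℕ := ∑ j ∈ range (J + 1), j * E j

lemma TE_eq (E : ℕ → ℕ) (J : ℕ) : TE E J = ∑ i : Fin (J + 1), ∑ j ∈ Ioi i, E j := by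
  rw [Finset.sum_comm' (t' := univ) (s' := fun j => Iio j)]
  · rw [TE, ← Fin.sum_univ_eq_sum_range (fun j => j * E j)]
    refine Finset.sum_congr rfl fun j _ => ?_
    rw [Finset.sum_const, Fin.card_Iio, smul_eq_mul]
  · intro i j
    simp

lemma TE_two (E : ℕ → ℕ) (J : ℕ) : ∑ i : Fin (J + 1), ∑ j : Fin (J + 1),
    (if i ≠ j then E (max i j : Fin (J + 1)) else 0) = 2 * TE E J := by
  have h1 : ∀ i j : Fin (J + 1), (if i ≠ j then E (max i j : Fin (J + 1)) else 0) =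
      (if i < j then E j else 0) + (if j < i then E i else 0) := by
    intro i j
    rcases lt_trichotomy i j with h | h | h
    · rw [if_pos h.ne, if_pos h, if_neg (lt_asymm h), max_eq_right h.le, add_zero]
    · rw [if_neg (not_not.mpr h), if_neg (by rw [h]; exact lt_irrefl _),
        if_neg (by rw [h]; exact lt_irrefl _)]
    · rw [if_pos h.ne', if_neg (lt_asymm h), if_pos h, max_eq_left h.le, zero_add]
  have h2 : ∑ i : Fin (J + 1), ∑ j : Fin (J + 1), (if i < j then E j else 0) = TE E J := by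
    rw [TE_eq]
    refine Finset.sum_congr rfl fun i _ => ?_
    rw [← Finset.sum_filter]
    congr 1
    ext j
    simp
  rw [Finset.sum_congr rfl fun i _ => Finset.sum_congr rfl fun j _ => h1 i j]
  simp only [Finset.sum_add_distrib]
  rw [h2, Finset.sum_comm, h2, two_mul]

lemma W_mem2 {ι : Type*} [Fintype ι] [DecidableEq ι] {E : ℕ → ℕ} {J : ℕ}
    (z : Fin (J + 1) × ι → R)
    (hz : ∀ (c : ι) (i j : Fin (J + 1)), i < j → z (j, c) - z (i, c) ∈ P ^ (E j)) :
    W z ∈ P ^ (2 * TE E J * Fintype.card ι) := by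
  unfold W
  have h1 : ∀ a : Fin (J + 1) × ι, ∀ b ∈ univ.erase a, z a - z b ∈
      P ^ (if a.2 = b.2 ∧ a.1 ≠ b.1 then E (max a.1 b.1 : Fin (J + 1)) else 0) := by
    rintro ⟨i, c⟩ ⟨j, d⟩ hb
    by_cases h : c = d ∧ i ≠ j
    · rw [if_pos h]
      obtain ⟨rfl, hij⟩ := h
      rcases lt_or_gt_of_ne hij with h2 | h2
      · simp only [max_eq_right h2.le]
        rw [← neg_sub]
        exact neg_mem (hz c i j h2)
      · simp only [max_eq_left h2.le]
        exact hz c j i h2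
    · rw [if_neg h, pow_zero, Ideal.one_eq_top]
      exact Submodule.mem_top
  have h2 := prod_mem_pow univ (fun a => ∏ b ∈ univ.erase a, (z a - z b)) _
    (fun a _ => prod_mem_pow (univ.erase a) (fun b => z a - z b) _ (h1 a))
  refine Ideal.pow_le_pow_right (le_of_eq ?_) h2
  symm
  have h3 : ∀ a : Fin (J + 1) × ι, ∑ b ∈ univ.erase a,
      (if a.2 = b.2 ∧ a.1 ≠ b.1 then E (max a.1 b.1 : Fin (J + 1)) else 0) =
      ∑ j : Fin (J + 1), (if a.1 ≠ j then E (max a.1 j : Fin (J + 1)) else 0) := by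
    rintro ⟨i, c⟩
    rw [Finset.sum_erase univ (by simp), Fintype.sum_prod_type]
    refine Finset.sum_congr rfl fun j _ => ?_
    simp only [ite_and]
    rw [Finset.sum_ite_eq univ c]
    simp
  rw [Finset.sum_congr rfl fun a _ => h3 a, Fintype.sum_prod_type]
  simp only [Finset.sum_const, Finset.card_univ, smul_eq_mul]
  rw [← Finset.mul_sum, TE_two, mul_comm]

end ring

lemma TE_ram (e k J u : ℕ) (hu : u ≤ J) :
    e * T k (J - u) ≤ TE (fun j => e * (k * (J - j) + 1 - k * u)) J := by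
  unfold TE T
  rw [Finset.mul_sum]
  have h1 : range (J - u + 1) ⊆ range (J + 1) := by
    intro j hj
    rw [mem_range] at hj ⊢
    omega
  refine le_trans (Finset.sum_le_sum fun j hj => ?_)
    (Finset.sum_le_sum_of_subset_of_nonneg h1 fun _ _ _ => Nat.zero_le _)
  rw [mem_range] at hj
  have h2 : k * (J - j) + 1 - k * u = k * (J - u - j) + 1 := by
    have h3 : J - j = (J - u - j) + u := by omega
    rw [h3, mul_add]
    omega
  simp only [h2]
  exact le_of_eq (by ring)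

variable {K : IntermediateField ℚ ℂ} [FiniteDimensional ℚ K] [IsGalois ℚ K]

section
variable {H' : Type*} [Group H'] (π : (K ≃ₐ[ℚ] K) →* H') {x : K}

/-- **the main inequality** with general exponents -/
theorem mainE [Fintype H'] {p : ℕ} (hp : p.Prime) (P : Ideal (𝓞 K)) [hPp : P.IsPrime]
    (hpP : (p : 𝓞 K) ∈ P) {e : ℕ} (he : (p : 𝓞 K) ∉ P ^ (e + 1)) {k : ℕ} (hk : 1 ≤ k)
    {E : ℕ → ℕ}
    (hpow : ∀ x y : 𝓞 K, x - y ∈ P → ∀ r, x ^ (p ^ r) - y ^ (p ^ r) ∈ P ^ (E r))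
    (τ : K ≃ₐ[ℚ] K) (hτ : IsFrobPow p P k τ) (J : ℕ) (hx : IsIntegral ℤ x)
    (hM : 1 < ((minpoly ℤ x).map (Int.castRingHom ℂ)).mahlerMeasure)
    (hs : Function.Surjective π) {m : ℕ} (hm0 : 0 < m)
    [Fintype (MulAction.orbit π.ker x)] (hm : Fintype.card (MulAction.orbit π.ker x) = m)
    (hr : ∀ h ∈ π.ker, ∀ r : ℕ, (h x) ^ (p ^ r) = x ^ (p ^ r) → h x = x) :
    (TE (fun j => E (k * (J - j))) J : ℝ) * (minpoly ℤ x).natDegree * Real.log p ≤
      e * Nat.card {ρ : H' // IsConj (π τ) ρ} *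
        ((minpoly ℤ x).natDegree * (((J : ℝ) + 1) / 2 * Real.log (m * ((J : ℝ) + 1))) +
          (m * ((J : ℝ) + 1) - 1) * (∑ i ∈ range (J + 1), ((p : ℝ) ^ k) ^ (J - i)) *
            Real.log ((minpoly ℤ x).map (Int.castRingHom ℂ)).mahlerMeasure) := by
  classical
  set q := p ^ k with hq
  have hq2 : 2 ≤ q := by
    rw [hq]
    exact hp.two_le.trans (Nat.le_self_pow (by omega) p)
  set n := (minpoly ℤ x).natDegree with hn
  set L := Real.log ((minpoly ℤ x).map (Int.castRingHom ℂ)).mahlerMeasure with hL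
  have hL0 : 0 < L := Real.log_pos hM
  have hst : 0 < stab x := stab_pos x
  have hst' : (0 : ℝ) < stab x := by exact_mod_cast hst
  have hS : ∑ σ : K ≃ₐ[ℚ] K, Real.posLog ‖((σ x : K) : ℂ)‖ = stab x * L :=
    sum_logPlus x hx
  have hS0 : 0 < ∑ σ : K ≃ₐ[ℚ] K, Real.posLog ‖((σ x : K) : ℂ)‖ := by
    rw [hS]; positivity
  have hV : W (zz π.ker hx τ q J 1) ≠ 0 := W_ne (zz_inj π hx τ J hq2 hS0 hr)
  have ht : ∀ y : 𝓞 K, act τ y - y ^ q ∈ P := by
    intro y
    refine hτ y _ ?_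
    change (algebraMap (𝓞 K) K) (act τ y - y ^ q) = _
    rw [map_sub, map_pow]
    rfl
  set v := W (zz π.ker hx τ q J 1) with hv
  set N : ℤ := Algebra.norm ℤ v with hN
  have hN0 : N ≠ 0 := by
    rw [hN, Ne, Algebra.norm_eq_zero_iff]
    exact hV
  set c := (Finset.univ.filter fun σ : K ≃ₐ[ℚ] K => π σ * π τ = π τ * π σ).card with hc
  set T' := TE (fun j => E (k * (J - j))) J with hT'
  have hmem : (N : 𝓞 K) ∈ P ^ (2 * T' * m * c) := by
    rw [hN, norm_eq]
    have h1 : ∏ σ : K ≃ₐ[ℚ] K, act σ v ∈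
        P ^ (∑ σ : K ≃ₐ[ℚ] K, if π σ * π τ = π τ * π σ then 2 * T' * m else 0) := by
      refine prod_mem_pow _ _ _ fun σ _ => ?_
      split_ifs with h
      · rw [hv, act_W π hx τ q J σ h, ← hm]
        refine W_mem2 (E := fun j => E (k * (J - j))) _ fun y i j hij => ?_
        exact Z_mem2 (act τ) hpow ht rfl _ (Fin.lt_def.mp hij) (Nat.lt_succ_iff.mp j.2)
      · simp
    rw [← Finset.sum_filter, Finset.sum_const, smul_eq_mul, mul_comm] at h1
    exact h1
  have h2 := vals hp P hpP he hN0 hmem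
  have h3 : Real.log |(N : ℝ)| = ∑ σ : K ≃ₐ[ℚ] K, Real.log ‖emb σ v‖ := by
    have h4 : ((N : ℤ) : ℂ) = ∏ σ : K ≃ₐ[ℚ] K, emb σ v := by
      have h5 := congrArg (fun y : 𝓞 K => algebraMap K ℂ (algebraMap (𝓞 K) K y)) (norm_eq v)
      simp only [map_prod] at h5
      rw [← hN] at h5
      rw [map_intCast, map_intCast] at h5
      exact h5
    have h6 : |(N : ℝ)| = ∏ σ : K ≃ₐ[ℚ] K, ‖emb σ v‖ := by
      rw [← norm_prod, ← h4, Complex.norm_intCast]
    rw [h6, Real.log_prod]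
    intro σ _
    rw [norm_ne_zero_iff, Ne, map_eq_zero_iff _ (emb_inj σ)]
    exact hV
  have hcard : Fintype.card (Fin (J + 1) × MulAction.orbit π.ker x) = (J + 1) * m := by
    rw [Fintype.card_prod, Fintype.card_fin, hm]
  have hcard1 : (((J + 1) * m - 1 : ℕ) : ℝ) = m * ((J : ℝ) + 1) - 1 := by
    rw [Nat.cast_sub (Nat.mul_pos (Nat.succ_pos J) hm0)]
    push_cast
    ring
  have h7 : Real.log |(N : ℝ)| ≤ Fintype.card (K ≃ₐ[ℚ] K) *
      (m * ((J : ℝ) + 1) * Real.log (m * ((J : ℝ) + 1))) +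
      2 * (m * ((J : ℝ) + 1) - 1) * (m * ((∑ i ∈ range (J + 1), (q : ℝ) ^ (J - i)) *
        (stab x * L))) := by
    rw [h3]
    refine (Finset.sum_le_sum fun σ _ => archW π hx σ τ q J hV).trans (le_of_eq ?_)
    rw [hcard, hcard1]
    rw [Finset.sum_add_distrib, Finset.sum_const, nsmul_eq_mul, Finset.card_univ, ← Finset.mul_sum,
      Finset.sum_comm]
    congr 1
    · push_cast
      rw [mul_comm ((J : ℝ) + 1) m]
    · congr 1
      rw [Finset.sum_congr rfl fun a _ => sum_zz π hx τ q J a, hS, ← Finset.sum_mul,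
        Fintype.sum_prod_type]
      simp only [Finset.sum_const, Finset.card_univ, nsmul_eq_mul]
      rw [hm, ← Finset.mul_sum, Fin.sum_univ_eq_sum_range (fun i => (q : ℝ) ^ (J - i)), mul_assoc]
  have h8 : Nat.card {ρ : H' // IsConj (π τ) ρ} * c = stab x * n := by
    rw [hn, stab_mul x hx, hc, card_preimage π hs (fun s => s * π τ = π τ * s),
      mul_left_comm, card_conj (π τ)]
    have h81 := card_preimage π hs (fun _ => True)
    simp only [Finset.filter_true, Finset.card_univ] at h81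
    exact h81.symm
  set D := Nat.card {ρ : H' // IsConj (π τ) ρ} with hD
  have h9 : (D : ℝ) * c = stab x * n := by exact_mod_cast h8
  have h10 : (Fintype.card (K ≃ₐ[ℚ] K) : ℝ) = stab x * n := by
    rw [← stab_mul x hx]; push_cast; rfl
  rw [h10] at h7
  set Q := ∑ i ∈ range (J + 1), (q : ℝ) ^ (J - i) with hQ
  set l := Real.log (m * ((J : ℝ) + 1)) with hl
  have hmr : (0 : ℝ) < m := by exact_mod_cast hm0
  have h11 : ((2 * T' * m * c : ℕ) : ℝ) * Real.log p ≤ e * (stab x * n *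
      (m * ((J : ℝ) + 1) * l) + 2 * (m * ((J : ℝ) + 1) - 1) * (m * (Q * (stab x * L)))) :=
    h2.trans (mul_le_mul_of_nonneg_left h7 (by positivity))
  have h12 := mul_le_mul_of_nonneg_left h11 (show (0 : ℝ) ≤ D by positivity)
  have h13 : (2 * m * stab x : ℝ) * ((T' : ℝ) * n * Real.log p) ≤ (2 * m * stab x) *
      (e * D * (n * (((J : ℝ) + 1) / 2 * l) + (m * ((J : ℝ) + 1) - 1) * Q * L)) := by
    calc (2 * m * stab x : ℝ) * ((T' : ℝ) * n * Real.log p)
        = (D * c) * (2 * m * (T' * Real.log p)) := by rw [h9]; ring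
      _ = D * (((2 * T' * m * c : ℕ) : ℝ) * Real.log p) := by push_cast; ring
      _ ≤ _ := h12
      _ = _ := by ring
  have h14 := le_of_mul_le_mul_left h13 (by positivity)
  have h15 : ((q : ℕ) : ℝ) = (p : ℝ) ^ k := by rw [hq]; push_cast; rfl
  rw [hQ, h15] at h14
  exact h14

/-- **the main inequality** with general exponents, without a condition on the conjugates -/
theorem mainEW [Fintype H'] {p : ℕ} (hp : p.Prime) (P : Ideal (𝓞 K)) [hPp : P.IsPrime]
    (hpP : (p : 𝓞 K) ∈ P) {e : ℕ} (he : (p : 𝓞 K) ∉ P ^ (e + 1)) {k : ℕ} (hk : 1 ≤ k)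
    {E : ℕ → ℕ}
    (hpow : ∀ x y : 𝓞 K, x - y ∈ P → ∀ r, x ^ (p ^ r) - y ^ (p ^ r) ∈ P ^ (E r))
    (τ : K ≃ₐ[ℚ] K) (hτ : IsFrobPow p P k τ) (J : ℕ) (hx : IsIntegral ℤ x)
    (hM : 1 < ((minpoly ℤ x).map (Int.castRingHom ℂ)).mahlerMeasure)
    (hs : Function.Surjective π) {m : ℕ}
    [Fintype (MulAction.orbit π.ker x)] (hm : Fintype.card (MulAction.orbit π.ker x) = m) (s : ℕ)
    (hr : ∀ h ∈ π.ker, ∀ r : ℕ, (h x) ^ (p ^ r) = x ^ (p ^ r) → (h x) ^ (p ^ s) = x ^ (p ^ s)) :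
    (TE (fun j => E (k * (J - j))) J : ℝ) * (minpoly ℤ x).natDegree * Real.log p ≤
      e * Nat.card {ρ : H' // IsConj (π τ) ρ} *
        ((minpoly ℤ x).natDegree * (((J : ℝ) + 1) / 2 * Real.log (m * ((J : ℝ) + 1))) +
          (p : ℝ) ^ s * (m * ((J : ℝ) + 1) - 1) * (∑ i ∈ range (J + 1), ((p : ℝ) ^ k) ^ (J - i)) *
            Real.log ((minpoly ℤ x).map (Int.castRingHom ℂ)).mahlerMeasure) := by
  classical
  set x' : K := x ^ (p ^ s) with hx'
  have hxi : IsIntegral ℤ x' := hx.pow _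
  set L := Real.log ((minpoly ℤ x).map (Int.castRingHom ℂ)).mahlerMeasure with hL
  set L' := Real.log ((minpoly ℤ x').map (Int.castRingHom ℂ)).mahlerMeasure with hL'
  have hL0 : 0 < L := Real.log_pos hM
  have hst : (0 : ℝ) < stab x := by exact_mod_cast stab_pos x
  have hst' : (0 : ℝ) < stab x' := by exact_mod_cast stab_pos x'
  have hSL : (stab x' : ℝ) * L' = (p : ℝ) ^ s * (stab x * L) := by
    rw [hL', hL, ← sum_logPlus x' hxi, ← sum_logPlus x hx, Finset.mul_sum]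
    refine Finset.sum_congr rfl fun σ _ => ?_
    rw [hx', map_pow, IntermediateField.coe_pow, norm_pow, Real.posLog_pow]
    push_cast
    rfl
  have hp0 : (0 : ℝ) < (p : ℝ) ^ s := by
    have : (0 : ℝ) < p := by exact_mod_cast hp.pos
    positivity
  have hL'0 : 0 < L' := by
    have h1 : 0 < (stab x' : ℝ) * L' := by rw [hSL]; positivity
    exact (pos_iff_pos_of_mul_pos h1).mp hst'
  have hM' : 1 < ((minpoly ℤ x').map (Int.castRingHom ℂ)).mahlerMeasure :=
    (Real.log_pos_iff (mahlerMeasure_nonneg _)).mp hL'0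
  have : Finite (MulAction.orbit π.ker x') := (Set.finite_range _).to_subtype
  have := Fintype.ofFinite (MulAction.orbit π.ker x')
  have hm'0 : 0 < Fintype.card (MulAction.orbit π.ker x') :=
    Fintype.card_pos_iff.mpr ⟨⟨x', MulAction.mem_orbit_self x'⟩⟩
  have hm' : Fintype.card (MulAction.orbit π.ker x') ≤ m := by
    rw [← hm]
    have hmem : ∀ y : MulAction.orbit π.ker x, (y : K) ^ (p ^ s) ∈ MulAction.orbit π.ker x' := by
      intro y
      obtain ⟨h, hh⟩ := y.2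
      refine ⟨h, ?_⟩
      rw [← hh]
      exact map_pow (h : K ≃ₐ[ℚ] K) x (p ^ s)
    refine Fintype.card_le_of_surjective (fun y : MulAction.orbit π.ker x =>
      (⟨(y : K) ^ (p ^ s), hmem y⟩ : MulAction.orbit π.ker x')) ?_
    rintro ⟨y, h, hh⟩
    refine ⟨⟨h • x, h, rfl⟩, Subtype.ext ?_⟩
    exact (map_pow (h : K ≃ₐ[ℚ] K) x (p ^ s)).symm.trans hh
  have hr' : ∀ h ∈ π.ker, ∀ r : ℕ, (h x') ^ (p ^ r) = x' ^ (p ^ r) → h x' = x' := by
    intro h hh r hrr
    rw [hx', map_pow, ← pow_mul, ← pow_mul, ← pow_add] at hrr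
    rw [hx', map_pow]
    exact hr h hh _ hrr
  have h1 := mainE π hp P hpP he hk hpow τ hτ J hxi hM' hs hm'0 rfl hr'
  set T' := TE (fun j => E (k * (J - j))) J with hT'
  set m' := Fintype.card (MulAction.orbit π.ker x') with hm'def
  set D := Nat.card {ρ : H' // IsConj (π τ) ρ} with hD
  set Q := ∑ i ∈ range (J + 1), ((p : ℝ) ^ k) ^ (J - i) with hQ
  have hQ0 : 0 ≤ Q := Finset.sum_nonneg fun i _ => by positivity
  set n := (minpoly ℤ x).natDegree with hn
  set n' := (minpoly ℤ x').natDegree with hn'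
  have hnn : (stab x' : ℝ) * n' = stab x * n := by
    have h2 := stab_mul x hx
    have h3 := stab_mul x' hxi
    rw [← h2] at h3
    exact_mod_cast h3
  have hmr : (m' : ℝ) ≤ m := by exact_mod_cast hm'
  have hmr1 : (1 : ℝ) ≤ m' := by exact_mod_cast hm'0
  have hl : Real.log (m' * ((J : ℝ) + 1)) ≤ Real.log (m * ((J : ℝ) + 1)) := by
    refine Real.log_le_log (by positivity) ?_
    exact mul_le_mul_of_nonneg_right hmr (by positivity)
  have h2 := mul_le_mul_of_nonneg_left h1 hst'.le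
  have h3 : (stab x : ℝ) * ((T' : ℝ) * n * Real.log p) ≤ stab x * (e * D *
      (n * (((J : ℝ) + 1) / 2 * Real.log (m * ((J : ℝ) + 1))) +
      (p : ℝ) ^ s * (m * ((J : ℝ) + 1) - 1) * Q * L)) := by
    calc (stab x : ℝ) * ((T' : ℝ) * n * Real.log p)
        = stab x' * ((T' : ℝ) * n' * Real.log p) := by
          calc _ = (stab x * n) * (T' * Real.log p) := by ring
            _ = (stab x' * n') * (T' * Real.log p) := by rw [hnn]
            _ = _ := by ring
      _ ≤ stab x' * (e * D * (n' * (((J : ℝ) + 1) / 2 * Real.log (m' * ((J : ℝ) + 1))) +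
          (m' * ((J : ℝ) + 1) - 1) * Q * L')) := h2
      _ = e * D * ((stab x * n) * (((J : ℝ) + 1) / 2 * Real.log (m' * ((J : ℝ) + 1))) +
          (m' * ((J : ℝ) + 1) - 1) * Q * ((p : ℝ) ^ s * (stab x * L))) := by
          rw [← hnn, ← hSL]; ring
      _ ≤ e * D * ((stab x * n) * (((J : ℝ) + 1) / 2 * Real.log (m * ((J : ℝ) + 1))) +
          (m * ((J : ℝ) + 1) - 1) * Q * ((p : ℝ) ^ s * (stab x * L))) := by
          gcongr
      _ = _ := by ring
  exact le_of_mul_le_mul_left h3 hst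

end

end Pool.Agent.J6H8.FR
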